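import Pool.Agent.W734.TWB.Stms

set_option autoImplicit false

/-!
# The numerical inequality for the energies in the small boxes
-/

namespace Pool.Agent.W368.TWB

open Pool.Agent.W734.TWB

theorem choose3 (n : ℕ) : (n.choose 3 : ℝ) = n * (n - 1) * (n - 2) / 6 := by
  induction n with
  | zero => simp
  | succ n ih =>
    rw [Nat.choose_succ_succ' n 2, Nat.cast_add, ih, Nat.cast_choose_two]
    push_cast
    ring

theorem hh_eq (β γ n0 : ℝ) (n : ℕ) : hh β γ n0 n =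
    (n : ℝ) * (n - 1) / 2 * β / n0 + (n : ℝ) * (n - 1) * (n - 2) / 6 * γ / n0 ^ 2 := by
  unfold hh
  rw [choose3, Nat.cast_choose_two]

theorem hh_low (β γ n0 : ℝ) (hγ : 0 ≤ γ) (h0 : 0 < n0) (n : ℕ) :
    n0 * (β * ((n : ℝ) / n0) ^ 2 / 2 + γ * ((n : ℝ) / n0) ^ 3 / 6) -
      (β * ((n : ℝ) / n0) / 2 + γ * ((n : ℝ) / n0) ^ 2 / 2) ≤ hh β γ n0 n := by
  rw [hh_eq]
  have hn : (0 : ℝ) ≤ n := Nat.cast_nonneg n
  have e : (n : ℝ) * (n - 1) / 2 * β / n0 + (n : ℝ) * (n - 1) * (n - 2) / 6 * γ / n0 ^ 2 =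
      n0 * (β * ((n : ℝ) / n0) ^ 2 / 2 + γ * ((n : ℝ) / n0) ^ 3 / 6) -
      (β * ((n : ℝ) / n0) / 2 + γ * ((n : ℝ) / n0) ^ 2 / 2) + γ * n / (3 * n0 ^ 2) := by
    field_simp
    ring
  rw [e]
  have : 0 ≤ γ * n / (3 * n0 ^ 2) := by positivity
  linarith

theorem hh_up (β γ n0 : ℝ) (hβ : 0 ≤ β) (hγ : 0 ≤ γ) (h0 : 0 < n0) (n : ℕ) :
    hh β γ n0 n ≤ n0 * (β * ((n : ℝ) / n0) ^ 2 / 2 + γ * ((n : ℝ) / n0) ^ 3 / 6) := by
  rw [hh_eq]
  have hn : (0 : ℝ) ≤ n := Nat.cast_nonneg n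
  have h1 : (0 : ℝ) ≤ n * (3 * n - 2) := by
    rcases Nat.eq_zero_or_pos n with rfl | h
    · simp
    · have : (1 : ℝ) ≤ n := by exact_mod_cast h
      apply mul_nonneg hn
      linarith
  have e : n0 * (β * ((n : ℝ) / n0) ^ 2 / 2 + γ * ((n : ℝ) / n0) ^ 3 / 6) =
      ((n : ℝ) * (n - 1) / 2 * β / n0 + (n : ℝ) * (n - 1) * (n - 2) / 6 * γ / n0 ^ 2) +
      (β * n / (2 * n0) + γ * (n * (3 * n - 2)) / (6 * n0 ^ 2)) := by
    field_simp
    ring
  rw [e]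
  have h2 : 0 ≤ β * n / (2 * n0) := by positivity
  have h3 : 0 ≤ γ * (n * (3 * n - 2)) / (6 * n0 ^ 2) := by positivity
  linarith

theorem num1 : S_NUM1 := by
  intro β γ ρm ε hβ hγ hρm hε
  -- the cutoff
  obtain ⟨P, hP⟩ : ∃ P : ℕ, 16 * ρm + 4 ≤ (P : ℝ) := exists_nat_ge _
  have hP4 : (4 : ℝ) ≤ P := by linarith
  have hP16 : 16 * ρm ≤ P := by linarith
  set f : ℝ := β * (P : ℝ) ^ 2 / 2 + γ * (P : ℝ) ^ 3 / 6 with hf
  have hf0 : 0 ≤ f := by positivity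
  set η : ℝ := min (1 / 2) (ε / (2 * (f + 1))) with hη
  have hη0 : 0 < η := lt_min (by norm_num) (by positivity)
  have hη1 : η ≤ 1 / 2 := min_le_left _ _
  have hη2 : η * f ≤ ε / 2 := by
    have h1 : η ≤ ε / (2 * (f + 1)) := min_le_right _ _
    calc η * f ≤ ε / (2 * (f + 1)) * f := mul_le_mul_of_nonneg_right h1 hf0
      _ = ε / 2 * (f / (f + 1)) := by field_simp
      _ ≤ ε / 2 * 1 := by
          apply mul_le_mul_of_nonneg_left _ (by positivity)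
          rw [div_le_one (by positivity)]
          linarith
      _ = ε / 2 := by ring
  obtain ⟨m, hm⟩ : ∃ m : ℕ, (β * P + γ * (P : ℝ) ^ 2) / ε + 1 ≤ (m : ℝ) := exists_nat_ge _
  have hq0 : 0 ≤ (β * P + γ * (P : ℝ) ^ 2) / ε := by positivity
  have hm1 : (1 : ℝ) ≤ m := by linarith
  have hm0 : (0 : ℝ) < m := by linarith
  have hm2 : β * P + γ * (P : ℝ) ^ 2 ≤ ε * m := by
    have h1 : (β * P + γ * (P : ℝ) ^ 2) / ε ≤ m := by linarith
    rw [div_le_iff₀ hε] at h1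
    linarith
  have hmN : 1 ≤ m := by exact_mod_cast hm1
  have hPN : 4 ≤ P := by exact_mod_cast hP4
  have hpN : 1 ≤ P * m := Nat.mul_pos (by omega) hmN
  refine ⟨m, P * m, η, hm0, hpN, hη0, by linarith, ?_⟩
  intro ρ hρ0 hρ n
  have hn : (0 : ℝ) ≤ n := Nat.cast_nonneg n
  have hdd : 0 ≤ dd β γ ρ := by unfold dd; positivity
  have hpR : ((P * m : ℕ) : ℝ) = P * m := by push_cast; ring
  unfold HH
  split_ifs with hnp
  · -- few particles
    have hnR : (n : ℝ) ≤ P * m := by rw [← hpR]; exact_mod_cast hnp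
    set t : ℝ := (n : ℝ) / m with ht
    have ht0 : 0 ≤ t := by positivity
    have htP : t ≤ P := by rw [ht, div_le_iff₀ hm0]; exact hnR
    have hnt : (n : ℝ) = m * t := by rw [ht]; field_simp
    have h1 := hh_low β γ m hγ hm0 n
    have h2 := hh_up β γ m hβ hγ hm0 n
    rw [← ht] at h1 h2
    have h3 : β * t ^ 2 / 2 + γ * t ^ 3 / 6 ≤ f := by
      rw [hf]
      have e1 : β * t ^ 2 ≤ β * (P : ℝ) ^ 2 :=
        mul_le_mul_of_nonneg_left (pow_le_pow_left₀ ht0 htP 2) hβ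
      have e2 : γ * t ^ 3 ≤ γ * (P : ℝ) ^ 3 :=
        mul_le_mul_of_nonneg_left (pow_le_pow_left₀ ht0 htP 3) hγ
      linarith
    have h4 : β * t / 2 + γ * t ^ 2 / 2 ≤ ε * m / 2 := by
      have e1 : β * t ≤ β * P := mul_le_mul_of_nonneg_left htP hβ
      have e2 : γ * t ^ 2 ≤ γ * (P : ℝ) ^ 2 :=
        mul_le_mul_of_nonneg_left (pow_le_pow_left₀ ht0 htP 2) hγ
      linarith
    have h5 : t * UU β γ ρ - dd β γ ρ ≤ β * t ^ 2 / 2 + γ * t ^ 3 / 6 := by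
      unfold UU dd
      have e1 : 0 ≤ β * (t - ρ) ^ 2 := by positivity
      have e2 : 0 ≤ γ * ((t - ρ) ^ 2 * (t + 2 * ρ)) := by positivity
      nlinarith
    have h6 : (m : ℝ) * (t * UU β γ ρ - dd β γ ρ) ≤ m * (β * t ^ 2 / 2 + γ * t ^ 3 / 6) :=
      mul_le_mul_of_nonneg_left h5 hm0.le
    have h7 : η * hh β γ m n ≤ ε / 2 * m := by
      calc η * hh β γ m n ≤ η * (m * f) := mul_le_mul_of_nonneg_left
            (h2.trans (mul_le_mul_of_nonneg_left h3 hm0.le)) hη0.le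
        _ = (η * f) * m := by ring
        _ ≤ ε / 2 * m := mul_le_mul_of_nonneg_right hη2 hm0.le
    have h8 : (n : ℝ) * UU β γ ρ = m * (t * UU β γ ρ) := by rw [hnt]; ring
    rw [h8]
    change _ ≤ (1 - η) * hh β γ m n
    linarith
  · -- many particles
    push Not at hnp
    have hpos : (0 : ℝ) < P * m := by positivity
    have hfl : (n : ℝ) / (2 * (P * m)) ≤ ((n / (P * m) : ℕ) : ℝ) := by
      rw [div_le_iff₀ (by positivity)]
      have e1 := Nat.div_add_mod n (P * m)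
      have e2 := Nat.mod_lt n hpN
      have e3 : 1 ≤ n / (P * m) := (Nat.one_le_div_iff hpN).2 hnp.le
      have e4 : n ≤ (n / (P * m)) * (2 * (P * m)) := by nlinarith
      calc (n : ℝ) ≤ (((n / (P * m)) * (2 * (P * m)) : ℕ) : ℝ) := by exact_mod_cast e4
        _ = _ := by push_cast; ring
    have hbig : 4 * (P * m) * (β * ρm + γ / 2 * ρm ^ 2) ≤ hh β γ m (P * m) := by
      rw [hh_eq, hpR]
      have hPm : 1 / (m : ℝ) ≤ 1 := by rw [div_le_one hm0]; exact hm1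
      have e1 : (P : ℝ) * m * (P * m - 1) / 2 * β / m +
          (P : ℝ) * m * (P * m - 1) * (P * m - 2) / 6 * γ / (m : ℝ) ^ 2 =
          (P * m) * (β * ((P - 1 / m) / 2) + γ * ((P - 1 / m) * (P - 2 / m) / 6)) := by
        field_simp
      rw [e1]
      have e2 : (P : ℝ) / 2 ≤ P - 1 / m := by linarith
      have e3 : (P : ℝ) / 2 ≤ P - 2 / m := by
        have : 2 / (m : ℝ) = 2 * (1 / m) := by ring
        rw [this]; linarith
      have e4 : (P : ℝ) / 2 * (P / 2) ≤ (P - 1 / m) * (P - 2 / m) :=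
        mul_le_mul e2 e3 (by positivity) (by linarith)
      have e5 : β * (4 * ρm) ≤ β * ((P - 1 / m) / 2) :=
        mul_le_mul_of_nonneg_left (by linarith) hβ
      have e6 : γ * (2 * ρm ^ 2) ≤ γ * ((P - 1 / m) * (P - 2 / m) / 6) := by
        apply mul_le_mul_of_nonneg_left _ hγ
        have e7 : (16 * ρm) ^ 2 ≤ (P : ℝ) ^ 2 := pow_le_pow_left₀ (by positivity) hP16 2
        nlinarith
      calc 4 * ((P : ℝ) * m) * (β * ρm + γ / 2 * ρm ^ 2)
          = (P * m) * (β * (4 * ρm) + γ * (2 * ρm ^ 2)) := by ring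
        _ ≤ _ := mul_le_mul_of_nonneg_left (add_le_add e5 e6) hpos.le
    have hU : UU β γ ρ ≤ β * ρm + γ / 2 * ρm ^ 2 := by
      unfold UU
      have e1 : β * ρ ≤ β * ρm := mul_le_mul_of_nonneg_left hρ hβ
      have e2 : γ / 2 * ρ ^ 2 ≤ γ / 2 * ρm ^ 2 :=
        mul_le_mul_of_nonneg_left (pow_le_pow_left₀ hρ0 hρ 2) (by positivity)
      linarith
    have hU0 : 0 ≤ β * ρm + γ / 2 * ρm ^ 2 := by positivity
    have hh0 : 0 ≤ hh β γ m (P * m) := le_trans (by positivity) hbig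
    have key : (n : ℝ) * UU β γ ρ ≤ ((n / (P * m) : ℕ) : ℝ) * ((1 - η) * hh β γ m (P * m)) := by
      calc (n : ℝ) * UU β γ ρ ≤ n * (β * ρm + γ / 2 * ρm ^ 2) :=
            mul_le_mul_of_nonneg_left hU hn
        _ = (n : ℝ) / (2 * (P * m)) * (1 / 2 * (4 * (P * m) * (β * ρm + γ / 2 * ρm ^ 2))) := by
            field_simp
            ring
        _ ≤ (n : ℝ) / (2 * (P * m)) * ((1 - η) * hh β γ m (P * m)) := by
            apply mul_le_mul_of_nonneg_left _ (by positivity)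
            exact mul_le_mul (by linarith) hbig (by positivity) (by linarith)
        _ ≤ _ := mul_le_mul_of_nonneg_right hfl (mul_nonneg (by linarith) hh0)
    change _ ≤ ((n / (P * m) : ℕ) : ℝ) * ((1 - η) * hh β γ m (P * m))
    have e1 : 0 ≤ (m : ℝ) * dd β γ ρ := by positivity
    have e2 : 0 ≤ ε * m := by positivity
    linarith

end Pool.Agent.W368.TWB
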